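import Mathlib

/-!
# The pullback of a smooth Riemannian metric by an immersion
-/

open Topology Set Manifold Bundle Bornology ContinuousLinearMap
open scoped Manifold ContDiff

noncomputable section

namespace UW727.UCov

variable {E : Type*} [NormedAddCommGroup E] [NormedSpace ℝ E]
  {H : Type*} [TopologicalSpace H] (I : ModelWithCorners ℝ E H)
  {M : Type*} [TopologicalSpace M] [ChartedSpace H M]
  {T : Type*} [TopologicalSpace T] [ChartedSpace H T]

/-- The derivative of `p` at `x`, as a continuous linear map of the model space. -/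
def derv (p : T → M) (x : T) : E →L[ℝ] E := mfderiv I I p x

/-- A bilinear form on a tangent space, as a bilinear form on the model space. -/
def toE {y : M} (B : TangentSpace I y →L[ℝ] TangentSpace I y →L[ℝ] ℝ) : E →L[ℝ] E →L[ℝ] ℝ := B

/-- The pullback of a bilinear form by a linear map. -/
def conj (B : E →L[ℝ] E →L[ℝ] ℝ) (D : E →L[ℝ] E) : E →L[ℝ] E →L[ℝ] ℝ :=
  ((ContinuousLinearMap.compL ℝ E E ℝ).flip D).comp (B.comp D)

theorem conj_apply (B : E →L[ℝ] E →L[ℝ] ℝ) (D : E →L[ℝ] E) (v w : E) :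
    conj B D v w = B (D v) (D w) := rfl

/-- The pullback under `p` of the bilinear forms `g`. -/
def pullForm (p : T → M) (g : ∀ y : M, TangentSpace I y →L[ℝ] TangentSpace I y →L[ℝ] ℝ) (x : T) :
    TangentSpace I x →L[ℝ] TangentSpace I x →L[ℝ] ℝ :=
  (conj (toE I (g (p x))) (derv I p x) : E →L[ℝ] E →L[ℝ] ℝ)

theorem pullForm_apply (p : T → M) (g : ∀ y : M, TangentSpace I y →L[ℝ] TangentSpace I y →L[ℝ] ℝ)
    (x : T) (v w : TangentSpace I x) :
    pullForm I p g x v w = g (p x) (mfderiv I I p x v) (mfderiv I I p x w) := rfl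

theorem contDiff_conj : ContDiff ℝ ∞ (fun q : (E →L[ℝ] E →L[ℝ] ℝ) × (E →L[ℝ] E) =>
    conj q.1 q.2) := by
  unfold conj
  fun_prop

theorem contMDiffAt_conj {f : T → E →L[ℝ] E →L[ℝ] ℝ} {D : T → E →L[ℝ] E} {x₀ : T}
    (hf : ContMDiffAt I 𝓘(ℝ, E →L[ℝ] E →L[ℝ] ℝ) ∞ f x₀)
    (hD : ContMDiffAt I 𝓘(ℝ, E →L[ℝ] E) ∞ D x₀) :
    ContMDiffAt I 𝓘(ℝ, E →L[ℝ] E →L[ℝ] ℝ) ∞ (fun x => conj (f x) (D x)) x₀ :=
  ContMDiffAt.comp x₀ (contDiff_conj (E := E)).contMDiff.contMDiffAt (hf.prodMk_space hD)

set_option backward.isDefEq.respectTransparency false in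
theorem contMDiff_pullForm [IsManifold I ∞ M] [IsManifold I ∞ T] {p : T → M}
    (hp : ContMDiff I I ∞ p)
    (g : ∀ y : M, TangentSpace I y →L[ℝ] TangentSpace I y →L[ℝ] ℝ)
    (hg : ContMDiff I (I.prod 𝓘(ℝ, E →L[ℝ] E →L[ℝ] ℝ)) ∞
      (fun y ↦ TotalSpace.mk' (E →L[ℝ] E →L[ℝ] ℝ) y (g y))) :
    ContMDiff I (I.prod 𝓘(ℝ, E →L[ℝ] E →L[ℝ] ℝ)) ∞
      (fun x ↦ TotalSpace.mk' (E →L[ℝ] E →L[ℝ] ℝ) x (pullForm I p g x)) := by
  intro x₀
  rw [contMDiffAt_section]
  have hD : ContMDiffAt I 𝓘(ℝ, E →L[ℝ] E) ∞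
      (inTangentCoordinates I I id p (mfderiv I I p) x₀) x₀ :=
    ContMDiffAt.mfderiv_const (hp x₀) le_rfl
  -- the form in coordinates around `p x₀`
  let B : M → E →L[ℝ] E →L[ℝ] ℝ := fun y =>
    inCoordinates E (fun y : M => TangentSpace I y) (E →L[ℝ] ℝ)
      (fun y : M => TangentSpace I y →L[ℝ] ℝ) (p x₀) y (p x₀) y (g y)
  have hB : ContMDiffAt I 𝓘(ℝ, E →L[ℝ] E →L[ℝ] ℝ) ∞ B (p x₀) := by
    have := hg (p x₀)
    rw [contMDiffAt_hom_bundle] at this
    exact this.2
  have hBp : ContMDiffAt I 𝓘(ℝ, E →L[ℝ] E →L[ℝ] ℝ) ∞ (fun x => B (p x)) x₀ := hB.comp x₀ (hp x₀)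
  have h2 := contMDiffAt_conj I hBp hD
  refine h2.congr_of_eventuallyEq ?_
  have hs : p ⁻¹' (chartAt H (p x₀)).source ∈ 𝓝 x₀ :=
    (hp.continuous.continuousAt).preimage_mem_nhds (chart_source_mem_nhds H (p x₀))
  filter_upwards [(chart_source_mem_nhds H x₀), hs] with x hx hpx
  have hx' : x ∈ (trivializationAt E (fun x : T => TangentSpace I x) x₀).baseSet := by
    simpa using hx
  have hpx' : p x ∈ (trivializationAt E (fun x : M => TangentSpace I x) (p x₀)).baseSet := by
    simpa using hpx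
  have key : ∀ u : E, (trivializationAt E (fun x : M => TangentSpace I x) (p x₀)).symm (p x)
      (inTangentCoordinates I I id p (mfderiv I I p) x₀ x u) =
        mfderiv I I p x ((trivializationAt E (fun x : T => TangentSpace I x) x₀).symm x u) := by
    intro u
    simp only [inTangentCoordinates, inCoordinates, ContinuousLinearMap.coe_comp,
      Function.comp_apply, id]
    rw [← Trivialization.symmL_apply (R := ℝ) _ hpx', ← Trivialization.symmL_apply (R := ℝ) _ hx',
      Trivialization.symmL_continuousLinearMapAt _ hpx']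
  ext v w
  rw [conj_apply, hom_trivializationAt_apply]
  simp only [B]
  rw [inCoordinates_apply_eq₂ hx' hx' (Set.mem_univ _),
    inCoordinates_apply_eq₂ hpx' hpx' (Set.mem_univ _)]
  rw [key v, key w, pullForm_apply]
  simp

section metric

variable [RiemannianBundle (fun y : M => TangentSpace I y)]
  [IsManifold I ∞ M] [IsContMDiffRiemannianBundle I ∞ E (fun y : M => TangentSpace I y)]

variable (M) in
/-- The bilinear forms of the Riemannian metric of `M`. -/
def formM : ∀ y : M, TangentSpace I y →L[ℝ] TangentSpace I y →L[ℝ] ℝ :=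
  (IsContMDiffRiemannianBundle.exists_contMDiff (IB := I) (n := ∞) (F := E)
    (E := fun y : M => TangentSpace I y)).choose

theorem contMDiff_formM : ContMDiff I (I.prod 𝓘(ℝ, E →L[ℝ] E →L[ℝ] ℝ)) ∞
    (fun y : M ↦ TotalSpace.mk' (E →L[ℝ] E →L[ℝ] ℝ) y (formM I M y)) :=
  (IsContMDiffRiemannianBundle.exists_contMDiff (IB := I) (n := ∞) (F := E)
    (E := fun y : M => TangentSpace I y)).choose_spec.1

theorem inner_eq_formM (y : M) (v w : TangentSpace I y) : inner ℝ v w = formM I M y v w :=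
  (IsContMDiffRiemannianBundle.exists_contMDiff (IB := I) (n := ∞) (F := E)
    (E := fun y : M => TangentSpace I y)).choose_spec.2 y v w

theorem pullForm_formM (p : T → M) (x : T) (v w : TangentSpace I x) :
    pullForm I p (formM I M) x v w = inner ℝ (mfderiv I I p x v) (mfderiv I I p x w) := by
  rw [inner_eq_formM, pullForm_apply]

/-- The pullback of the Riemannian metric of `M` under an immersion. -/
def pullMetric [IsManifold I ∞ T] [FiniteDimensional ℝ E] {p : T → M} (hp : ContMDiff I I ∞ p)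
    (hinj : ∀ x, Function.Injective (mfderiv I I p x)) :
    ContMDiffRiemannianMetric I ∞ E (fun x : T => TangentSpace I x) where
  inner := pullForm I p (formM I M)
  symm x v w := by
    rw [pullForm_formM, pullForm_formM, real_inner_comm]
  pos x v hv := by
    rw [pullForm_formM]
    apply real_inner_self_pos.2
    intro h
    apply hv
    apply hinj x
    rw [h]
    exact (map_zero (mfderiv I I p x)).symm
  isVonNBounded x := by
    let L : E →ₗ[ℝ] TangentSpace I (p x) := (mfderiv I I p x).toLinearMap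
    obtain ⟨K, hK, hanti⟩ := L.exists_antilipschitzWith (LinearMap.ker_eq_bot.mpr (hinj x))
    have h0 : {v : E | pullForm I p (formM I M) x v v < (1 : ℝ)} ⊆ Metric.ball 0 K := by
      intro v hv
      simp only [mem_ofPred_eq] at hv
      rw [mem_ball_zero_iff]
      have hv2 : ‖L v‖ ^ 2 < 1 := by
        rw [← real_inner_self_eq_norm_sq]
        exact lt_of_eq_of_lt (pullForm_formM I p x v v).symm hv
      have h1 : ‖L v‖ < 1 := by
        by_contra hcon
        push Not at hcon
        nlinarith [norm_nonneg (L v)]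
      have h2 : ‖v‖ ≤ K * ‖L v‖ := by
        have := hanti.le_mul_dist v 0
        rw [map_zero, dist_zero_right, dist_zero_right] at this
        exact this
      have hK' : (0 : ℝ) < K := hK
      nlinarith
    exact (NormedSpace.isVonNBounded_ball ℝ E K).subset h0
  contMDiff := contMDiff_pullForm I hp _ (contMDiff_formM I)

end metric

end UW727.UCov
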