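import Mathlib

/-!
# The smooth structure lifted along a local homeomorphism

`p : T → M` is a local homeomorphism into a charted space. The charts of `T` are the local
branches of `p` followed by the charts of `M`.
-/

open Topology Set Manifold
open scoped Manifold ContDiff

noncomputable section

namespace UW727.UCov

section charts

variable {H : Type*} [TopologicalSpace H] {M : Type*} [TopologicalSpace M] [ChartedSpace H M]
  {T : Type*} [TopologicalSpace T]

/-- The lifted charted space structure. -/
@[reducible] def liftedCharts {p : T → M} (hp : IsLocalHomeomorph p) : ChartedSpace H T where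
  atlas := {φ | ∃ (f : OpenPartialHomeomorph T M) (c : OpenPartialHomeomorph M H),
    ⇑f = p ∧ c ∈ atlas H M ∧ φ = f ≫ₕ c}
  chartAt e := (hp e).choose ≫ₕ chartAt H (p e)
  mem_chart_source e := by
    obtain ⟨h1, h2⟩ := (hp e).choose_spec
    rw [OpenPartialHomeomorph.trans_source]
    refine ⟨h1, ?_⟩
    rw [mem_preimage, ← h2]
    exact mem_chart_source H _
  chart_mem_atlas e := ⟨(hp e).choose, chartAt H (p e), (hp e).choose_spec.2.symm,
    chart_mem_atlas H _, rfl⟩

/-- The atlas of `T` consists of the branches of `p` followed by charts of `M`. -/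
def LiftedAtlas (H : Type*) [TopologicalSpace H] [ChartedSpace H M] [ChartedSpace H T]
    (p : T → M) : Prop :=
  ∀ φ : OpenPartialHomeomorph T H, φ ∈ atlas H T ↔
    ∃ (f : OpenPartialHomeomorph T M) (c : OpenPartialHomeomorph M H),
      ⇑f = p ∧ c ∈ atlas H M ∧ φ = f ≫ₕ c

theorem liftedAtlas_liftedCharts {p : T → M} (hp : IsLocalHomeomorph p) :
    letI := liftedCharts (H := H) hp
    LiftedAtlas H p := fun _ => Iff.rfl

theorem LiftedAtlas.hasGroupoid [ChartedSpace H T] {p : T → M} (hA : LiftedAtlas H p)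
    (G : StructureGroupoid H) [ClosedUnderRestriction G] [HasGroupoid M G] : HasGroupoid T G := by
  refine ⟨?_⟩
  intro φ φ' hφ hφ'
  obtain ⟨f, c, hf, hc, rfl⟩ := (hA _).mp hφ
  obtain ⟨f', c', hf', hc', rfl⟩ := (hA _).mp hφ'
  have h1 : c.symm ≫ₕ c' ∈ G := G.compatible hc hc'
  set s : Set H := (f ≫ₕ c).symm.source ∩ (f ≫ₕ c).symm ⁻¹' f'.source with hs
  have hso : IsOpen s := (f ≫ₕ c).symm.isOpen_inter_preimage f'.open_source
  have h2 : (c.symm ≫ₕ c').restr s ∈ G := closedUnderRestriction' h1 hso
  refine G.mem_of_eqOnSource h2 ?_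
  have key : ∀ h ∈ (f ≫ₕ c).symm.source, f' ((f ≫ₕ c).symm h) = c.symm h := by
    intro h hh
    rw [hf', ← hf]
    have : c.symm h ∈ f.target := by
      simp only [OpenPartialHomeomorph.symm_source, OpenPartialHomeomorph.trans_target,
        mem_inter_iff, mem_preimage] at hh
      exact hh.2
    simp only [OpenPartialHomeomorph.coe_trans_symm, Function.comp_apply]
    exact f.right_inv this
  constructor
  · ext h
    simp only [OpenPartialHomeomorph.trans_source, OpenPartialHomeomorph.restr_source,
      hso.interior_eq, mem_inter_iff, mem_preimage]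
    constructor
    · rintro ⟨h3, h4, h5⟩
      rw [key h h3] at h5
      refine ⟨⟨?_, h5⟩, h3, h4⟩
      simp only [OpenPartialHomeomorph.symm_source, OpenPartialHomeomorph.trans_target,
        mem_inter_iff] at h3 ⊢
      exact h3.1
    · rintro ⟨⟨h3, h5⟩, h4, h6⟩
      refine ⟨h4, h6, ?_⟩
      rw [key h h4]
      exact h5
  · intro h hh
    have h3 : h ∈ (f ≫ₕ c).symm.source := hh.1
    change c' (f' ((f ≫ₕ c).symm h)) = c' (c.symm h)
    rw [key h h3]

end charts

section smooth

variable {E : Type*} [NormedAddCommGroup E] [NormedSpace ℝ E]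
  {H : Type*} [TopologicalSpace H] (I : ModelWithCorners ℝ E H)
  {M : Type*} [TopologicalSpace M] [ChartedSpace H M]
  {T : Type*} [TopologicalSpace T] [ChartedSpace H T]

theorem LiftedAtlas.isManifold {p : T → M} (hA : LiftedAtlas H p) [IsManifold I ∞ M] :
    IsManifold I ∞ T :=
  { hA.hasGroupoid (contDiffGroupoid ∞ I) with }

theorem LiftedAtlas.isLocalDiffeomorph {p : T → M} (hA : LiftedAtlas H p)
    (hp : IsLocalHomeomorph p) [IsManifold I ∞ M] : IsLocalDiffeomorph I I ∞ p := by
  have := hA.isManifold I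
  intro e
  obtain ⟨f, hef, hf⟩ := hp e
  have h1 : ∀ c ∈ atlas H M, f ≫ₕ c ∈ IsManifold.maximalAtlas I ∞ T := fun c hc =>
    IsManifold.subset_maximalAtlas ((hA _).mpr ⟨f, c, hf.symm, hc, rfl⟩)
  refine ⟨⟨f.toPartialEquiv, f.open_source, f.open_target, ?_, ?_⟩, hef, ?_⟩
  · intro x hx
    set c := chartAt H (f x) with hc
    have hcm : c ∈ IsManifold.maximalAtlas I ∞ M := IsManifold.chart_mem_maximalAtlas _
    have h2 := contMDiffOn_of_mem_maximalAtlas (h1 c (chart_mem_atlas H _))
    have h3 := contMDiffOn_symm_of_mem_maximalAtlas hcm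
    have hxs : x ∈ (f ≫ₕ c).source := by
      rw [OpenPartialHomeomorph.trans_source]
      exact ⟨hx, mem_chart_source H _⟩
    have h4 : ContMDiffAt I I ∞ (f ≫ₕ c) x := h2.contMDiffAt ((f ≫ₕ c).open_source.mem_nhds hxs)
    have h5 : ContMDiffAt I I ∞ c.symm ((f ≫ₕ c) x) :=
      h3.contMDiffAt (c.open_target.mem_nhds (c.map_source (mem_chart_source H _)))
    have h6 : ContMDiffAt I I ∞ (c.symm ∘ (f ≫ₕ c)) x := h5.comp x h4
    refine (h6.congr_of_eventuallyEq ?_).contMDiffWithinAt
    filter_upwards [(f ≫ₕ c).open_source.mem_nhds hxs] with y hy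
    rw [OpenPartialHomeomorph.trans_source] at hy
    exact (c.left_inv hy.2).symm
  · intro y hy
    set c := chartAt H y with hc
    have hcm : c ∈ IsManifold.maximalAtlas I ∞ M := IsManifold.chart_mem_maximalAtlas _
    have h2 := contMDiffOn_symm_of_mem_maximalAtlas (h1 c (chart_mem_atlas H _))
    have h3 := contMDiffOn_of_mem_maximalAtlas hcm
    have hys : c y ∈ (f ≫ₕ c).target := by
      rw [OpenPartialHomeomorph.trans_target]
      refine ⟨c.map_source (mem_chart_source H _), ?_⟩
      rw [mem_preimage, c.left_inv (mem_chart_source H _)]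
      exact hy
    have h4 : ContMDiffAt I I ∞ (f ≫ₕ c).symm (c y) :=
      h2.contMDiffAt ((f ≫ₕ c).open_target.mem_nhds hys)
    have h5 : ContMDiffAt I I ∞ c y := h3.contMDiffAt (c.open_source.mem_nhds (mem_chart_source H _))
    have h6 : ContMDiffAt I I ∞ ((f ≫ₕ c).symm ∘ c) y := h4.comp y h5
    refine (h6.congr_of_eventuallyEq ?_).contMDiffWithinAt
    filter_upwards [c.open_source.mem_nhds (mem_chart_source H _)] with z hz
    change f.symm z = f.symm (c.symm (c z))
    rw [c.left_inv hz]
  · intro x hx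
    exact congrFun hf x

end smooth

end UW727.UCov
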