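import Pool.Agent.Work.MP_727c87_cx.UCov.Top

/-!
# Simply connected neighbourhoods in a manifold without boundary, and separation of coverings
-/

open Topology Set Manifold
open scoped Manifold ContDiff

noncomputable section

namespace UW727.UCov

section nhds

variable {E : Type*} [NormedAddCommGroup E] [NormedSpace ℝ E]
  {H : Type*} [TopologicalSpace H] (I : ModelWithCorners ℝ E H) [I.Boundaryless]
  {M : Type*} [TopologicalSpace M] [ChartedSpace H M]

theorem exists_ball (x : M) : ∃ r > 0, Metric.ball (extChartAt I x x) r ⊆ (extChartAt I x).target :=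
  Metric.mem_nhds_iff.mp (extChartAt_target_mem_nhds (I := I) x)

/-- The ball in the chart around `x`. -/
def chartBall (x : M) : Set M :=
  (extChartAt I x).source ∩ extChartAt I x ⁻¹'
    Metric.ball (extChartAt I x x) (exists_ball I x).choose

theorem isOpen_chartBall (x : M) : IsOpen (chartBall I x) :=
  (continuousOn_extChartAt x).isOpen_inter_preimage (isOpen_extChartAt_source x) Metric.isOpen_ball

theorem mem_chartBall (x : M) : x ∈ chartBall I x :=
  ⟨mem_extChartAt_source x, Metric.mem_ball_self (exists_ball I x).choose_spec.1⟩

/-- The chart identifies the chart ball with a ball. -/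
def chartBallHomeo (x : M) :
    chartBall I x ≃ₜ Metric.ball (extChartAt I x x) (exists_ball I x).choose where
  toFun y := ⟨extChartAt I x y, y.2.2⟩
  invFun z := ⟨(extChartAt I x).symm z,
    (extChartAt I x).map_target ((exists_ball I x).choose_spec.2 z.2), by
      rw [mem_preimage, (extChartAt I x).right_inv ((exists_ball I x).choose_spec.2 z.2)]
      exact z.2⟩
  left_inv y := Subtype.ext ((extChartAt I x).left_inv y.2.1)
  right_inv z := Subtype.ext ((extChartAt I x).right_inv ((exists_ball I x).choose_spec.2 z.2))
  continuous_toFun := by
    refine Continuous.subtype_mk ?_ _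
    exact (continuousOn_iff_continuous_domRestrict.mp (continuousOn_extChartAt (I := I) x)).comp
      (continuous_inclusion (inter_subset_left))
  continuous_invFun := by
    refine Continuous.subtype_mk ?_ _
    exact (continuousOn_iff_continuous_domRestrict.mp
      (continuousOn_extChartAt_symm (I := I) x)).comp
      (continuous_inclusion (exists_ball I x).choose_spec.2)

theorem isSimplyConnected_chartBall (x : M) : IsSimplyConnected (chartBall I x) := by
  have h1 : ContractibleSpace (Metric.ball (extChartAt I x x) (exists_ball I x).choose) :=
    Metric.contractibleSpace_ball (exists_ball I x).choose_spec.1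
  exact (chartBallHomeo I x).toHomotopyEquiv.simplyConnectedSpace

variable (M) in
/-- The chart balls. -/
def scNhds : SCNhds M where
  U := chartBall I
  isOpen := isOpen_chartBall I
  mem := mem_chartBall I
  sc := isSimplyConnected_chartBall I

variable (M) in
include I in
theorem locallyPathConnectedSpace_mfd : LocallyPathConnectedSpace M := by
  have : LocallyPathConnectedSpace H :=
    I.toHomeomorph.isOpenEmbedding.locallyPathConnectedSpace
  exact ChartedSpace.locallyPathConnectedSpace H M

end nhds

/-- The total space of a separated continuous map into a Hausdorff space is Hausdorff. -/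
theorem t2Space_of_isSeparatedMap {T M : Type*} [TopologicalSpace T] [TopologicalSpace M]
    [T2Space M] {p : T → M} (hp : Continuous p) (hs : IsSeparatedMap p) : T2Space T := by
  refine ⟨fun x y hxy => ?_⟩
  by_cases h : p x = p y
  · exact hs x y h hxy
  · obtain ⟨u, v, hu, hv, hxu, hyv, huv⟩ := t2_separation h
    exact ⟨p ⁻¹' u, p ⁻¹' v, hu.preimage hp, hv.preimage hp, hxu, hyv, huv.preimage p⟩

/-- Distances are finite in a preconnected extended pseudometric space. -/
theorem edist_ne_top_of_preconnected {X : Type*} [PseudoEMetricSpace X] [PreconnectedSpace X]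
    (x y : X) : edist x y ≠ ⊤ := by
  have hopen : IsOpen {z : X | edist z x < ⊤} := Metric.isOpen_eball
  have hclosed : IsClosed {z : X | edist z x < ⊤} := by
    rw [← isOpen_compl_iff, EMetric.isOpen_iff]
    intro z hz
    refine ⟨1, one_pos, ?_⟩
    intro w hw hw2
    apply hz
    have h1 : edist w z < 1 := hw
    have h2 : edist w x < ⊤ := hw2
    calc edist z x ≤ edist z w + edist w x := edist_triangle _ _ _
      _ < ⊤ := by
        rw [edist_comm z w]
        exact ENNReal.add_lt_top.mpr ⟨h1.trans ENNReal.one_lt_top, h2⟩
  have hclopen : IsClopen {z : X | edist z x < ⊤} := ⟨hclosed, hopen⟩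
  have huniv := hclopen.eq_univ ⟨x, by simp⟩
  have : y ∈ {z : X | edist z x < ⊤} := by rw [huniv]; trivial
  rw [edist_comm]
  exact (this : edist y x < ⊤).ne

end UW727.UCov
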