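import Pool.Agent.Work.MP_727c87_cx.Statement
import Pool.Agent.Work.MP_727c87_cx.UCov.Nhds
import Pool.Agent.Work.MP_727c87_cx.UCov.Mfd
import Pool.Agent.Work.MP_727c87_cx.UCov.Metric

/-!
# Every closed Riemannian manifold has a universal Riemannian covering
-/

open Topology Set Manifold Bundle
open scoped Manifold ContDiff

noncomputable section

namespace UW727.UCov

open Pool.Agent.Work.MP_bc4532_gt (ClosedRiemannianManifold)

variable (M : ClosedRiemannianManifold)

instance locPath : LocallyPathConnectedSpace M.Pt := locallyPathConnectedSpace_mfd M.I M.Pt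

instance pathConn : PathConnectedSpace M.Pt := PathConnectedSpace.of_locallyPathConnectedSpace

/-- The base point. -/
def base : M.Pt := Classical.arbitrary M.Pt

/-- The points of the universal covering. -/
def UPt : Type := Tot (scNhds M.I M.Pt) (base M)

instance : TopologicalSpace (UPt M) :=
  inferInstanceAs (TopologicalSpace (Tot (scNhds M.I M.Pt) (base M)))

instance : SimplyConnectedSpace (UPt M) :=
  inferInstanceAs (SimplyConnectedSpace (Tot (scNhds M.I M.Pt) (base M)))

/-- The covering map. -/
def proj : UPt M → M.Pt := (core (scNhds M.I M.Pt) (base M)).proj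

theorem isCoveringMap : IsCoveringMap (proj M) := isCoveringMap_proj (scNhds M.I M.Pt) (base M)

instance : ChartedSpace M.H (UPt M) := liftedCharts (isCoveringMap M).isLocalHomeomorph

theorem liftedAtlas : LiftedAtlas M.H (proj M) :=
  liftedAtlas_liftedCharts (isCoveringMap M).isLocalHomeomorph

instance : IsManifold M.I ∞ (UPt M) := (liftedAtlas M).isManifold M.I

theorem isLocalDiffeomorph : IsLocalDiffeomorph M.I M.I ∞ (proj M) :=
  (liftedAtlas M).isLocalDiffeomorph M.I (isCoveringMap M).isLocalHomeomorph

theorem mfderiv_injective (x : UPt M) : Function.Injective (mfderiv M.I M.I (proj M) x) := by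
  have h := isLocalDiffeomorph M
  have h2 := (h.mfderivToContinuousLinearEquiv (by simp) x).injective
  have h3 := h.mfderivToContinuousLinearEquiv_coe (by simp) x
  rw [← h3]
  exact h2

/-- The lifted Riemannian metric. -/
def metric : ContMDiffRiemannianMetric M.I ∞ M.E (fun x : UPt M => TangentSpace M.I x) :=
  pullMetric M.I (isLocalDiffeomorph M).contMDiff (mfderiv_injective M)

instance : RiemannianBundle (fun x : UPt M => TangentSpace M.I x) :=
  ⟨(metric M).toRiemannianMetric⟩

instance : IsContMDiffRiemannianBundle M.I ∞ M.E (fun x : UPt M => TangentSpace M.I x) :=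
  inferInstance

instance : IsContinuousRiemannianBundle M.E (fun x : UPt M => TangentSpace M.I x) :=
  ⟨⟨(metric M).inner, (metric M).contMDiff.continuous, fun _ _ _ => rfl⟩⟩

theorem norm_mfderiv (x : UPt M) (v : TangentSpace M.I x) :
    ‖mfderiv M.I M.I (proj M) x v‖ = ‖v‖ := by
  have h1 : ‖v‖ ^ 2 = ‖mfderiv M.I M.I (proj M) x v‖ ^ 2 := by
    rw [← real_inner_self_eq_norm_sq, ← real_inner_self_eq_norm_sq]
    exact pullForm_formM M.I (proj M) x v v
  exact ((sq_eq_sq₀ (norm_nonneg _) (norm_nonneg _)).mp h1).symm

instance : T2Space (UPt M) :=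
  t2Space_of_isSeparatedMap (isCoveringMap M).continuous (isCoveringMap M).isSeparatedMap

instance : LocallyCompactSpace (UPt M) := Manifold.locallyCompact_of_finiteDimensional M.I

/-- The extended metric space structure. -/
abbrev emetric : EMetricSpace (UPt M) := EMetricSpace.ofRiemannianMetric M.I (UPt M)

instance : MetricSpace (UPt M) :=
  letI := emetric M
  EMetricSpace.toMetricSpace (fun x y => edist_ne_top_of_preconnected x y)

instance : IsRiemannianManifold M.I (UPt M) := ⟨fun _ _ => rfl⟩

/-- **Existence of the universal Riemannian covering** of a closed Riemannian manifold. -/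
def universalCover : RiemannianUniversalCover M where
  Pt := UPt M
  p := proj M
  isCoveringMap := isCoveringMap M
  isLocalDiffeomorph := isLocalDiffeomorph M
  norm_mfderiv := norm_mfderiv M

theorem nonempty_riemannianUniversalCover : Nonempty (RiemannianUniversalCover M) :=
  ⟨universalCover M⟩

end UW727.UCov
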