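import Mathlib

/-!
# The universal covering of a locally simply connected space

`X` is a path connected, locally path connected space in which every point has a simply connected
open neighbourhood. The universal covering is constructed as a fibre bundle over `X` whose fibre is
the (discrete) set of homotopy classes of loops at a base point.
-/

open Topology Set
open scoped unitInterval

noncomputable section

namespace UW727.UCov

variable {X : Type*} [TopologicalSpace X]

/-! ### Paths in a simply connected subset -/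

section inU

/-- A path between two points of a simply connected subset, inside this subset. -/
def pU {U : Set X} (hU : IsSimplyConnected U) {a b : X} (ha : a ∈ U) (hb : b ∈ U) : Path a b :=
  haveI := hU.simplyConnectedSpace
  (PathConnectedSpace.somePath (⟨a, ha⟩ : U) ⟨b, hb⟩).map continuous_subtype_val

theorem pU_mem {U : Set X} (hU : IsSimplyConnected U) {a b : X} (ha : a ∈ U) (hb : b ∈ U) (t : I) :
    pU hU ha hb t ∈ U := by
  have := hU.simplyConnectedSpace
  exact ((PathConnectedSpace.somePath (⟨a, ha⟩ : U) ⟨b, hb⟩) t).2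

/-- The class of a path between two points of a simply connected subset, inside this subset. -/
def inU {U : Set X} (hU : IsSimplyConnected U) {a b : X} (ha : a ∈ U) (hb : b ∈ U) :
    Path.Homotopic.Quotient a b := Path.Homotopic.Quotient.mk (pU hU ha hb)

theorem inU_eq {U : Set X} (hU : IsSimplyConnected U) {a b : X} (ha : a ∈ U) (hb : b ∈ U)
    {γ : Path a b} (hγ : ∀ t, γ t ∈ U) : inU hU ha hb = Path.Homotopic.Quotient.mk γ := by
  have := hU.simplyConnectedSpace
  let γ' : Path (⟨a, ha⟩ : U) ⟨b, hb⟩ :=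
    { toFun := fun t => ⟨γ t, hγ t⟩
      continuous_toFun := by fun_prop
      source' := by simp
      target' := by simp }
  have h1 := SimplyConnectedSpace.paths_homotopic
    (PathConnectedSpace.somePath (⟨a, ha⟩ : U) ⟨b, hb⟩) γ'
  have h2 := h1.map (⟨Subtype.val, continuous_subtype_val⟩ : C(U, X))
  exact Path.Homotopic.Quotient.eq.mpr h2

theorem inU_trans {U : Set X} (hU : IsSimplyConnected U) {a b c : X} (ha : a ∈ U) (hb : b ∈ U)
    (hc : c ∈ U) : (inU hU ha hb).trans (inU hU hb hc) = inU hU ha hc := by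
  rw [inU, inU, ← Path.Homotopic.Quotient.mk_trans]
  refine (inU_eq hU ha hc fun t => ?_).symm
  rw [Path.trans_apply]
  split_ifs
  · exact pU_mem ..
  · exact pU_mem ..

theorem inU_self {U : Set X} (hU : IsSimplyConnected U) {a : X} (ha ha' : a ∈ U) :
    inU hU ha ha' = Path.Homotopic.Quotient.refl a := by
  rw [← Path.Homotopic.Quotient.mk_refl]
  exact inU_eq hU ha ha' fun t => by simpa using ha

end inU

/-- A choice of a simply connected open neighbourhood of every point. -/
structure SCNhds (X : Type*) [TopologicalSpace X] where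
  /-- the neighbourhood -/
  U : X → Set X
  isOpen : ∀ x, IsOpen (U x)
  mem : ∀ x, x ∈ U x
  sc : ∀ x, IsSimplyConnected (U x)

/-- The fibre: homotopy classes of loops, with the discrete topology. -/
@[ext] structure Fib (x₀ : X) where
  /-- the class -/
  cls : Path.Homotopic.Quotient x₀ x₀

instance (x₀ : X) : TopologicalSpace (Fib x₀) := ⊥
instance (x₀ : X) : DiscreteTopology (Fib x₀) := ⟨rfl⟩

/-- Right translation of a class. -/
def Fib.act {x₀ : X} (v : Fib x₀) (t : Path.Homotopic.Quotient x₀ x₀) : Fib x₀ :=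
  ⟨v.cls.trans t⟩

@[simp] theorem Fib.act_cls {x₀ : X} (v : Fib x₀) (t : Path.Homotopic.Quotient x₀ x₀) :
    (v.act t).cls = v.cls.trans t := rfl

theorem Fib.act_refl {x₀ : X} (v : Fib x₀) : v.act (Path.Homotopic.Quotient.refl x₀) = v := by
  ext; simp

theorem Fib.act_act {x₀ : X} (v : Fib x₀) (s t : Path.Homotopic.Quotient x₀ x₀) :
    (v.act s).act t = v.act (s.trans t) := by
  ext; simp [Path.Homotopic.Quotient.trans_assoc]

variable (S : SCNhds X) (x₀ : X)

section core

variable [PathConnectedSpace X]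

/-- The class of a chosen path from the base point. -/
def aP (x : X) : Path.Homotopic.Quotient x₀ x :=
  Path.Homotopic.Quotient.mk (PathConnectedSpace.somePath x₀ x)

/-- The transition loops. -/
def tau (i j x : X) (hi : x ∈ S.U i) (hj : x ∈ S.U j) : Path.Homotopic.Quotient x₀ x₀ :=
  (aP x₀ i).trans ((inU (S.sc i) (S.mem i) hi).trans
    ((inU (S.sc j) hj (S.mem j)).trans (aP x₀ j).symm))

theorem tau_self (i x : X) (hi hi' : x ∈ S.U i) :
    tau S x₀ i i x hi hi' = Path.Homotopic.Quotient.refl x₀ := by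
  rw [tau, ← Path.Homotopic.Quotient.trans_assoc (inU _ _ _), inU_trans, inU_self,
    Path.Homotopic.Quotient.refl_trans, Path.Homotopic.Quotient.trans_symm]

theorem tau_comp (i j k x : X) (hi : x ∈ S.U i) (hj : x ∈ S.U j) (hk : x ∈ S.U k) :
    (tau S x₀ i j x hi hj).trans (tau S x₀ j k x hj hk) = tau S x₀ i k x hi hk := by
  simp only [tau, Path.Homotopic.Quotient.trans_assoc]
  congr 2
  rw [← Path.Homotopic.Quotient.trans_assoc (aP x₀ j).symm, Path.Homotopic.Quotient.symm_trans,
    Path.Homotopic.Quotient.refl_trans, ← Path.Homotopic.Quotient.trans_assoc (inU _ _ _),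
    inU_trans, inU_self, Path.Homotopic.Quotient.refl_trans]

theorem tau_locConst [LocallyPathConnectedSpace X] (i j x : X) (hi : x ∈ S.U i) (hj : x ∈ S.U j) :
    ∀ᶠ y in 𝓝 x, ∃ (hi' : y ∈ S.U i) (hj' : y ∈ S.U j),
      tau S x₀ i j y hi' hj' = tau S x₀ i j x hi hj := by
  have hW : S.U i ∩ S.U j ∈ 𝓝 x := ((S.isOpen i).inter (S.isOpen j)).mem_nhds ⟨hi, hj⟩
  obtain ⟨W, ⟨hWx, hWc⟩, hWU⟩ := (path_connected_basis x).mem_iff.mp hW
  filter_upwards [hWx] with y hy
  refine ⟨(hWU hy).1, (hWU hy).2, ?_⟩
  obtain ⟨γ, hγ⟩ := hWc.joinedIn _ (mem_of_mem_nhds hWx) _ hy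
  have h1 : inU (S.sc i) hi (hWU hy).1 = Path.Homotopic.Quotient.mk γ :=
    inU_eq _ _ _ fun t => (hWU (hγ t)).1
  have h2 : inU (S.sc j) hj (hWU hy).2 = Path.Homotopic.Quotient.mk γ :=
    inU_eq _ _ _ fun t => (hWU (hγ t)).2
  simp only [tau]
  rw [← inU_trans (S.sc i) (S.mem i) hi (hWU hy).1, ← inU_trans (S.sc j) hj (hWU hy).2 (S.mem j),
    h1, h2]
  simp only [Path.Homotopic.Quotient.trans_assoc]

open Classical in
/-- The coordinate changes. -/
def change (i j x : X) (v : Fib x₀) : Fib x₀ :=
  if h : x ∈ S.U i ∧ x ∈ S.U j then v.act (tau S x₀ i j x h.1 h.2) else v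

theorem change_of_mem {i j x : X} (hi : x ∈ S.U i) (hj : x ∈ S.U j) (v : Fib x₀) :
    change S x₀ i j x v = v.act (tau S x₀ i j x hi hj) := by
  rw [change, dif_pos ⟨hi, hj⟩]

/-- The fibre bundle core of the universal covering. -/
def core [LocallyPathConnectedSpace X] : FiberBundleCore X X (Fib x₀) where
  baseSet := S.U
  isOpen_baseSet := S.isOpen
  indexAt := id
  mem_baseSet_at := S.mem
  coordChange := change S x₀
  coordChange_self i x hx v := by
    rw [change_of_mem S x₀ hx hx, tau_self, Fib.act_refl]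
  continuousOn_coordChange i j := by
    rintro ⟨x, v⟩ ⟨⟨hi, hj⟩, -⟩
    apply ContinuousAt.continuousWithinAt
    have h1 := tau_locConst S x₀ i j x hi hj
    have h2 : ∀ᶠ w in 𝓝 v, w = v := by
      rw [nhds_discrete]; exact Filter.eventually_pure.mpr rfl
    refine (continuousAt_const (y := v.act (tau S x₀ i j x hi hj))).congr ?_
    rw [Filter.EventuallyEq]
    have h3 := h1.prod_nhds h2
    filter_upwards [h3] with p hp
    obtain ⟨⟨hi', hj', h4⟩, h5⟩ := hp
    rw [change_of_mem S x₀ hi' hj', h4, h5]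
  coordChange_comp i j k x hx v := by
    obtain ⟨⟨hi, hj⟩, hk⟩ := hx
    rw [change_of_mem S x₀ hj hk, change_of_mem S x₀ hi hj, change_of_mem S x₀ hi hk,
      ← tau_comp S x₀ i j k x hi hj hk, Fib.act_act]

/-! ### The total space -/

variable [LocallyPathConnectedSpace X]

/-- The total space of the universal covering. -/
abbrev Tot : Type _ := (core S x₀).TotalSpace

/-- The point of the fibre. -/
def fib (e : Tot S x₀) : Fib x₀ := e.snd

/-- The class in `X` represented by a point of the total space. -/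
def cl (e : Tot S x₀) : Path.Homotopic.Quotient x₀ e.proj :=
  (fib S x₀ e).cls.trans (aP x₀ e.proj)

theorem cl_injective {e e' : Tot S x₀} (h : e.proj = e'.proj)
    (h2 : cl S x₀ e = (cl S x₀ e').cast rfl h) : e = e' := by
  obtain ⟨x, v⟩ := e
  obtain ⟨x', v'⟩ := e'
  dsimp only at h
  subst h
  rw [Path.Homotopic.Quotient.cast_rfl_rfl] at h2
  simp only [cl] at h2
  have h3 := congrArg (fun z => Path.Homotopic.Quotient.trans z (aP x₀ x).symm) h2
  simp only [Path.Homotopic.Quotient.trans_assoc, Path.Homotopic.Quotient.trans_symm,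
    Path.Homotopic.Quotient.trans_refl] at h3
  have h4 : v = v' := Fib.ext h3
  rw [h4]

theorem exists_cl {x : X} (γ : Path.Homotopic.Quotient x₀ x) :
    ∃ v : Fib x₀, cl S x₀ ⟨x, v⟩ = γ := by
  refine ⟨⟨Path.Homotopic.Quotient.trans γ (aP x₀ x).symm⟩, ?_⟩
  simp only [cl]
  change Path.Homotopic.Quotient.trans (Path.Homotopic.Quotient.trans γ (aP x₀ x).symm) _ = _
  rw [Path.Homotopic.Quotient.trans_assoc, Path.Homotopic.Quotient.symm_trans,
    Path.Homotopic.Quotient.trans_refl]

theorem cl_eq (i : X) (e : Tot S x₀) (he : e.proj ∈ S.U i) :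
    cl S x₀ e = ((core S x₀).localTriv i e).2.cls.trans
      ((aP x₀ i).trans (inU (S.sc i) (S.mem i) he)) := by
  have h1 : ((core S x₀).localTriv i e).2 =
      (fib S x₀ e).act (tau S x₀ e.proj i e.proj (S.mem e.proj) he) := by
    rw [FiberBundleCore.localTriv_apply]
    exact change_of_mem S x₀ (S.mem e.proj) he _
  rw [h1, cl, Fib.act_cls]
  simp only [tau, Path.Homotopic.Quotient.trans_assoc]
  rw [← Path.Homotopic.Quotient.trans_assoc (aP x₀ i).symm, Path.Homotopic.Quotient.symm_trans,
    Path.Homotopic.Quotient.refl_trans, inU_trans, inU_self, inU_self,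
    Path.Homotopic.Quotient.trans_refl, Path.Homotopic.Quotient.trans_refl]

theorem isCoveringMap_proj : IsCoveringMap (core S x₀).proj :=
  FiberBundle.isCoveringMap

theorem cl_eq_cast (i : X) (e : Tot S x₀) {y : X} (hy : y = e.proj) (he : y ∈ S.U i) :
    (cl S x₀ e).cast rfl hy = ((core S x₀).localTriv i e).2.cls.trans
      ((aP x₀ i).trans (inU (S.sc i) (S.mem i) he)) := by
  subst hy
  rw [Path.Homotopic.Quotient.cast_rfl_rfl]
  exact cl_eq ..

omit [PathConnectedSpace X] [LocallyPathConnectedSpace X] in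
theorem eq_of_cast_eq {a b a' b' : X} (ha : a' = a) (hb : b' = b)
    (p : Path.Homotopic.Quotient x₀ a) (q : Path.Homotopic.Quotient x₀ b) (γ : Path a b)
    (h : q.cast rfl hb = (p.cast rfl ha).trans (Path.Homotopic.Quotient.mk (γ.cast ha hb))) :
    q = p.trans (Path.Homotopic.Quotient.mk γ) := by
  subst ha hb
  simpa using h

/-- Transport of the class along a path, for continuous maps of the interval. -/
theorem cl_path' (G : C(I, Tot S x₀)) (γ : Path (G 0).proj (G 1).proj)
    (hγ : ∀ t, γ t = (G t).proj) :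
    cl S x₀ (G 1) = (cl S x₀ (G 0)).trans (Path.Homotopic.Quotient.mk γ) := by
  -- the transported class
  let g : I → Path.Homotopic.Quotient x₀ (γ 0) := fun t =>
    ((cl S x₀ (G t)).cast rfl (hγ t)).trans (Path.Homotopic.Quotient.mk (γ.subpath t 0))
  have hg : IsLocallyConstant g := by
    rw [IsLocallyConstant.iff_eventually_eq]
    intro t₀
    set i := γ t₀ with hi
    have h0 : G t₀ ∈ ((core S x₀).localTriv i).source := by
      rw [FiberBundleCore.mem_localTriv_source]
      have h : (G t₀).proj = i := (hγ t₀).symm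
      change (G t₀).proj ∈ S.U i
      rw [h]
      exact S.mem i
    have h1 : ∀ᶠ t in 𝓝 t₀, ((core S x₀).localTriv i (G t)).2 =
        ((core S x₀).localTriv i (G t₀)).2 := by
      have h2 : ContinuousAt (fun t => ((core S x₀).localTriv i (G t)).2) t₀ :=
        continuous_snd.continuousAt.comp
          ((((core S x₀).localTriv i).continuousAt h0).comp G.continuous.continuousAt)
      have h3 := h2.eventually (f := fun t => ((core S x₀).localTriv i (G t)).2)
        (p := fun w => w = ((core S x₀).localTriv i (G t₀)).2)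
        (by rw [nhds_discrete]; exact Filter.eventually_pure.mpr rfl)
      exact h3
    have h2 : ∀ᶠ t in 𝓝 t₀, γ t ∈ S.U i :=
      γ.continuous.continuousAt.eventually_mem ((S.isOpen i).mem_nhds (by rw [← hi]; exact S.mem i))
    obtain ⟨b, c, hbc, hJ, hJs⟩ := exists_Icc_mem_subset_of_mem_nhds (h1.and h2)
    filter_upwards [hJ] with t ht
    have hsub : ∀ s, γ.subpath t t₀ s ∈ S.U i := by
      intro s
      have h3 : γ.subpath t t₀ s ∈ range (γ.subpath t t₀) := mem_range_self s
      rw [Path.range_subpath] at h3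
      obtain ⟨r, hr, hr2⟩ := h3
      rw [← hr2]
      exact (hJs (uIcc_subset_Icc ht hbc hr)).2
    have hU := (hJs ht).2
    have hU0 := (hJs hbc).2
    have h5 : Path.Homotopic.Quotient.mk (γ.subpath t 0) =
        (inU (S.sc i) hU hU0).trans (Path.Homotopic.Quotient.mk (γ.subpath t₀ 0)) := by
      rw [inU_eq (S.sc i) hU hU0 hsub, ← Path.Homotopic.Quotient.mk_trans]
      exact Path.Homotopic.Quotient.eq.mpr ⟨(Path.Homotopy.subpathTransSubpath γ t t₀ 0).symm⟩
    simp only [g]
    rw [cl_eq_cast S x₀ i (G t) (hγ t) hU, cl_eq_cast S x₀ i (G t₀) (hγ t₀) hU0, h5, (hJs ht).1]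
    simp only [Path.Homotopic.Quotient.trans_assoc]
    rw [← Path.Homotopic.Quotient.trans_assoc (inU _ _ _), inU_trans]
  have h6 : g 1 = g 0 := hg.apply_eq_of_isPreconnected isPreconnected_univ (mem_univ _) (mem_univ _)
  have h7 : g 0 = (cl S x₀ (G 0)).cast rfl (hγ 0) := by
    simp only [g]
    rw [Path.subpath_self, Path.Homotopic.Quotient.mk_refl, Path.Homotopic.Quotient.trans_refl]
  have h8 : (g 1).trans (Path.Homotopic.Quotient.mk (γ.subpath 0 1)) =
      (cl S x₀ (G 1)).cast rfl (hγ 1) := by
    simp only [g]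
    rw [Path.Homotopic.Quotient.trans_assoc, ← Path.Homotopic.Quotient.mk_trans]
    have h9 : Path.Homotopic.Quotient.mk ((γ.subpath 1 0).trans (γ.subpath 0 1)) =
        Path.Homotopic.Quotient.refl (γ 1) := by
      rw [← Path.Homotopic.Quotient.mk_refl, ← Path.subpath_self γ 1]
      exact Path.Homotopic.Quotient.eq.mpr ⟨Path.Homotopy.subpathTransSubpath γ 1 0 1⟩
    rw [h9, Path.Homotopic.Quotient.trans_refl]
  rw [h6, h7, Path.subpath_zero_one] at h8
  exact eq_of_cast_eq x₀ (hγ 0) (hγ 1) _ _ γ h8.symm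

/-- Transport of the class along a path. -/
theorem cl_path {e e' : Tot S x₀} (Γ : Path e e') (γ : Path e.proj e'.proj)
    (hγ : ∀ t, γ t = (Γ t).proj) :
    cl S x₀ e' = (cl S x₀ e).trans (Path.Homotopic.Quotient.mk γ) := by
  obtain ⟨G, h0, h1⟩ := Γ
  have h0' : e = G 0 := h0.symm
  have h1' : e' = G 1 := h1.symm
  subst h0' h1'
  exact cl_path' S x₀ G γ hγ

/-- The base point of the total space. -/
def basePt : Tot S x₀ := ⟨x₀, (⟨(aP x₀ x₀).symm⟩ : Fib x₀)⟩

theorem cl_basePt : cl S x₀ (basePt S x₀) = Path.Homotopic.Quotient.refl x₀ := by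
  simp only [cl, basePt, fib]
  exact Path.Homotopic.Quotient.symm_trans _

theorem joined_basePt (e : Tot S x₀) : Joined (basePt S x₀) e := by
  obtain ⟨γ, hγ⟩ := Path.Homotopic.Quotient.mk_surjective (cl S x₀ e)
  obtain ⟨G, hG1, hG2⟩ := (isCoveringMap_proj S x₀).exists_path_lifts (γ : C(I, X))
    (basePt S x₀) (by simp [basePt])
  have hproj : ∀ t, (G t).proj = γ t := fun t => congrFun hG1 t
  have h1 : (G 1).proj = e.proj := by rw [hproj]; simp
  have h2 : cl S x₀ (G 1) = (cl S x₀ (basePt S x₀)).trans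
      (Path.Homotopic.Quotient.mk (γ.cast rfl h1)) := by
    refine cl_path S x₀ (⟨G, hG2, rfl⟩ : Path (basePt S x₀) (G 1)) _ fun t => ?_
    exact (hproj t).symm
  have h3 : G 1 = e := by
    refine cl_injective S x₀ h1 ?_
    rw [h2, cl_basePt, ← hγ]
    exact (Path.Homotopic.Quotient.refl_trans _).trans (Path.Homotopic.Quotient.mk_cast _ _ _)
  exact ⟨⟨G, hG2, h3⟩⟩

/-- The total space is simply connected. -/
instance simplyConnectedSpace_tot : SimplyConnectedSpace (Tot S x₀) := by
  rw [simply_connected_iff_paths_homotopic']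
  refine ⟨?_, ?_⟩
  · refine ⟨⟨basePt S x₀⟩, fun x y => ?_⟩
    exact (joined_basePt S x₀ x).symm.trans (joined_basePt S x₀ y)
  · intro e e' p q
    have hinj := (isCoveringMap_proj S x₀).injective_path_homotopic_map e e'
    rw [← Path.Homotopic.Quotient.eq]
    apply hinj
    have h1 := cl_path S x₀ p (p.map (isCoveringMap_proj S x₀).continuous) fun t => rfl
    have h2 := cl_path S x₀ q (q.map (isCoveringMap_proj S x₀).continuous) fun t => rfl
    rw [h1] at h2
    have h3 := congrArg (fun z => (cl S x₀ e).symm.trans z) h2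
    simp only [← Path.Homotopic.Quotient.trans_assoc, Path.Homotopic.Quotient.symm_trans,
      Path.Homotopic.Quotient.refl_trans] at h3
    dsimp only
    rw [← Path.Homotopic.Quotient.mk_map, ← Path.Homotopic.Quotient.mk_map]
    exact h3

end core

end UW727.UCov
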